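import Pool.Agent.FGT.Stmts

set_option autoImplicit false

namespace Pool.Agent.FGT.H7

open Filter Topology MeasureTheory Pool.Agent.FGT

universe u v

theorem bad_finite {L : Type u} [Group L] (hF : FCen L) {a b : L} (ha : a ≠ 1) (hb : b ≠ 1) :
    {g : L | (g⁻¹ * a * g) * b = b * (g⁻¹ * a * g)}.Finite := by
  have h1 : {g : L | (g⁻¹ * a * g) * b = b * (g⁻¹ * a * g)} ⊆
      ⋃ c ∈ {h : L | h * b = b * h}, {g : L | g⁻¹ * a * g = c} := by
    intro g hg
    simp only [Set.mem_iUnion]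
    exact ⟨g⁻¹ * a * g, hg, rfl⟩
  refine Set.Finite.subset ?_ h1
  refine Set.Finite.biUnion (hF b hb) fun c _ => ?_
  rcases Set.eq_empty_or_nonempty {g : L | g⁻¹ * a * g = c} with h | ⟨g0, hg0⟩
  · rw [h]; exact Set.finite_empty
  · have h2 : {g : L | g⁻¹ * a * g = c} ⊆ (fun h => h * g0) '' {h : L | h * a = a * h} := by
      intro g hg
      refine ⟨g * g0⁻¹, ?_, by simp⟩
      have h3 : g⁻¹ * a * g = g0⁻¹ * a * g0 := by
        have h4 : g⁻¹ * a * g = c := hg
        have h5 : g0⁻¹ * a * g0 = c := hg0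
        rw [h4, h5]
      show g * g0⁻¹ * a = a * (g * g0⁻¹)
      symm
      have h6 : a * g = g * (g0⁻¹ * a * g0) := by
        rw [← h3]; group
      calc a * (g * g0⁻¹) = (a * g) * g0⁻¹ := by group
        _ = g * (g0⁻¹ * a * g0) * g0⁻¹ := by rw [h6]
        _ = g * g0⁻¹ * a := by group
    exact Set.Finite.subset ((hF a ha).image _) h2

theorem infinite_of_fi {L : Type u} [Group L] (hL : Infinite L) (N : Subgroup L)
    (hN : N.FiniteIndex) : (N : Set L).Infinite := by
  intro hfin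
  have h1 : Finite N := hfin.to_subtype
  have h2 : Finite (L ⧸ N) := Subgroup.finite_quotient_of_finiteIndex
  have h3 : Finite L := Finite.of_equiv _ (Subgroup.groupEquivQuotientProdSubgroup (s := N)).symm
  exact not_finite L

theorem cmb : CmbStmt.{u, v} := by
  intro L _ hL hF X _ _ μ hmp hms N hN n a E hE hinv
  have key : ∀ n : ℕ, (∀ i ≤ n, a i ∈ N ∧ a i ≠ 1) → ∀ δ : ENNReal,
      (∀ i ≤ n, μ ({x : X | a i • x ≠ x} ∩ E i) ≤ δ) →
      ∃ b ∈ N, b ≠ 1 ∧ ∀ i ≤ n, μ ({x : X | b • x ≠ x} ∩ E i) ≤ 2 ^ n * δ := by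
    intro n
    induction n with
    | zero =>
      intro ha δ hδ
      refine ⟨a 0, (ha 0 le_rfl).1, (ha 0 le_rfl).2, fun i hi => ?_⟩
      have : i = 0 := Nat.le_zero.1 hi
      subst this
      simpa using hδ 0 le_rfl
    | succ n ih =>
      intro ha δ hδ
      obtain ⟨b, hbN, hb1, hb⟩ := ih (fun i hi => ha i (hi.trans n.le_succ)) δ
        (fun i hi => hδ i (hi.trans n.le_succ))
      obtain ⟨haN, ha1⟩ := ha (n + 1) le_rfl
      obtain ⟨g, hgN, hgb⟩ := ((infinite_of_fi hL N hN).sdiff (bad_finite hF ha1 hb1)).nonempty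
      set u : L := g⁻¹ * a (n + 1) * g with hu
      have hub : u * b ≠ b * u := hgb
      have huN : u ∈ N := N.mul_mem (N.mul_mem (N.inv_mem hgN) haN) hgN
      set c : L := u * b * u⁻¹ * b⁻¹ with hc
      have hcN : c ∈ N := N.mul_mem (N.mul_mem (N.mul_mem huN hbN) (N.inv_mem huN)) (N.inv_mem hbN)
      have hc1 : c ≠ 1 := by
        intro h
        apply hub
        have : u * b = c * (b * u) := by rw [hc]; group
        rw [this, h, one_mul]
      -- translation of supports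
      have htr : ∀ (h k : L) (i : ℕ), k ∈ N →
          μ ({x : X | h • (k • x) ≠ k • x} ∩ E i) = μ ({x : X | h • x ≠ x} ∩ E i) := by
        intro h k i hk
        have h1 : {x : X | h • (k • x) ≠ k • x} ∩ E i =
            (fun x : X => k • x) ⁻¹' ({x : X | h • x ≠ x} ∩ E i) := by
          ext x
          simp only [Set.mem_inter_iff, Set.mem_ofPred_eq, Set.mem_preimage]
          rw [hinv i k hk x]
        rw [h1, (hmp k).measure_preimage ((hms h).inter (hE i)).nullMeasurableSet]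
      have hsu : ∀ i : ℕ, μ ({x : X | c • x ≠ x} ∩ E i) ≤ 2 * μ ({x : X | u • x ≠ x} ∩ E i) := by
        intro i
        have h1 : {x : X | c • x ≠ x} ∩ E i ⊆
            ({x : X | u • x ≠ x} ∩ E i) ∪ ({x : X | u • (b⁻¹ • x) ≠ b⁻¹ • x} ∩ E i) := by
          rintro x ⟨hx, hxE⟩
          by_contra hcon
          simp only [Set.mem_union, Set.mem_inter_iff, Set.mem_ofPred_eq, hxE, and_true, not_or,
            not_not] at hcon
          obtain ⟨h2, h3⟩ := hcon
          apply hx
          have h4 : u⁻¹ • (b⁻¹ • x) = b⁻¹ • x := by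
            conv_lhs => rw [← h3]
            rw [inv_smul_smul]
          rw [hc, mul_smul, mul_smul, mul_smul, h4, smul_inv_smul]
          exact h2
        calc μ ({x : X | c • x ≠ x} ∩ E i)
            ≤ μ (({x : X | u • x ≠ x} ∩ E i) ∪ ({x : X | u • (b⁻¹ • x) ≠ b⁻¹ • x} ∩ E i)) :=
              measure_mono h1
          _ ≤ μ ({x : X | u • x ≠ x} ∩ E i) + μ ({x : X | u • (b⁻¹ • x) ≠ b⁻¹ • x} ∩ E i) :=
              measure_union_le _ _
          _ = 2 * μ ({x : X | u • x ≠ x} ∩ E i) := by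
              rw [htr u b⁻¹ i (N.inv_mem hbN), two_mul]
      have hsb : ∀ i : ℕ, μ ({x : X | c • x ≠ x} ∩ E i) ≤ 2 * μ ({x : X | b • x ≠ x} ∩ E i) := by
        intro i
        have h1 : {x : X | c • x ≠ x} ∩ E i ⊆
            ({x : X | b • x ≠ x} ∩ E i) ∪ ({x : X | b • (u⁻¹ • x) ≠ u⁻¹ • x} ∩ E i) := by
          rintro x ⟨hx, hxE⟩
          by_contra hcon
          simp only [Set.mem_union, Set.mem_inter_iff, Set.mem_ofPred_eq, hxE, and_true, not_or,
            not_not] at hcon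
          obtain ⟨h2, h3⟩ := hcon
          apply hx
          have h4 : b⁻¹ • x = x := by
            conv_lhs => rw [← h2]
            rw [inv_smul_smul]
          rw [hc, mul_smul, mul_smul, mul_smul, h4, h3, smul_inv_smul]
        calc μ ({x : X | c • x ≠ x} ∩ E i)
            ≤ μ (({x : X | b • x ≠ x} ∩ E i) ∪ ({x : X | b • (u⁻¹ • x) ≠ u⁻¹ • x} ∩ E i)) :=
              measure_mono h1
          _ ≤ μ ({x : X | b • x ≠ x} ∩ E i) + μ ({x : X | b • (u⁻¹ • x) ≠ u⁻¹ • x} ∩ E i) :=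
              measure_union_le _ _
          _ = 2 * μ ({x : X | b • x ≠ x} ∩ E i) := by
              rw [htr b u⁻¹ i (N.inv_mem huN), two_mul]
      refine ⟨c, hcN, hc1, fun i hi => ?_⟩
      rcases Nat.lt_or_ge i (n + 1) with h | h
      · have h1 := hb i (Nat.lt_succ_iff.1 h)
        calc μ ({x : X | c • x ≠ x} ∩ E i) ≤ 2 * μ ({x : X | b • x ≠ x} ∩ E i) := hsb i
          _ ≤ 2 * (2 ^ n * δ) := by gcongr
          _ = 2 ^ (n + 1) * δ := by rw [pow_succ]; ring
      · have hin : i = n + 1 := le_antisymm hi h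
        subst hin
        have h2 : μ ({x : X | u • x ≠ x} ∩ E (n + 1)) = μ ({x : X | a (n + 1) • x ≠ x} ∩ E (n + 1)) := by
          rw [← htr (a (n + 1)) g (n + 1) hgN]
          congr 1
          ext x
          simp only [Set.mem_inter_iff, Set.mem_ofPred_eq]
          have h3 : u • x = x ↔ a (n + 1) • (g • x) = g • x := by
            rw [hu, mul_smul, mul_smul, inv_smul_eq_iff]
          rw [Ne, Ne, h3]
        have h4 : (1 : ENNReal) ≤ 2 ^ n := one_le_pow₀ (by norm_num)
        calc μ ({x : X | c • x ≠ x} ∩ E (n + 1)) ≤ 2 * μ ({x : X | u • x ≠ x} ∩ E (n + 1)) := hsu _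
          _ ≤ 2 * δ := by rw [h2]; gcongr; exact hδ _ le_rfl
          _ = 2 * (1 * δ) := by rw [one_mul]
          _ ≤ 2 * (2 ^ n * δ) := by gcongr
          _ = 2 ^ (n + 1) * δ := by rw [pow_succ]; ring
  intro ha δ hδ
  obtain ⟨b, hbN, hb1, hb⟩ := key n ha δ hδ
  refine ⟨b, hbN, hb1, fun i hi => (hb i hi).trans ?_⟩
  gcongr
  · norm_num
  · exact n.le_succ

end Pool.Agent.FGT.H7
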